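import Pool.Agent.U84.AWQ.Stm
import Pool.Agent.R456.CL.CmpO

/-!
# Project AWQ, package GCO: generalized comparability of orthogonal projections
(helper962; after `Pool/Agent/R456/CL/CmpO.lean`, helper33)
-/

set_option autoImplicit false

namespace Pool.Agent.U962.AWQ

open Pool.Agent.R456.CL Pool.Agent.R456.CL.CmpO Pool.Agent.U84.AWQ

universe u

theorem t_GCO : S_GCO.{u} := by
  intro A _ hCut hSup hZ hAdd e f he hf hef
  have hfe : f * e = 0 := by
    have := congrArg star hef
    rwa [star_mul, he.isSelfAdjoint.star_eq, hf.isSelfAdjoint.star_eq, star_zero] at this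
  obtain ⟨W, hW⟩ := exists_max e f
  have hG := hW.1
  -- the two suprema
  have hinj : ∀ i j : W, i ≠ j → (i : A) ≠ (j : A) := fun i j h h' => h (Subtype.ext h')
  have hPi : ∀ i : W, IsStarProjection (star (i : A) * (i : A)) := fun i => (hG.1 i i.2).2.1
  have hPf : ∀ i : W, IsStarProjection ((i : A) * star (i : A)) := fun i => final_proj (hPi i)
  obtain ⟨E, hE⟩ := hSup W (fun i => star (i : A) * (i : A)) hPi
    (fun i j h => (hG.2 i i.2 j j.2 (hinj i j h)).1)
  obtain ⟨F, hF⟩ := hSup W (fun i => (i : A) * star (i : A)) hPf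
    (fun i j h => (hG.2 i i.2 j j.2 (hinj i j h)).2)
  have hEP : IsStarProjection E := hE.1
  have hFP : IsStarProjection F := hF.1
  -- E ≤ e, F ≤ f
  have heE : e * E = E := by
    have h1 : (1 - e) * E = 0 := by
      apply hE.2.2
      intro i
      have h2 : e * (star (i : A) * (i : A)) = star (i : A) * (i : A) :=
        star_eq_of (hPi i) he (hG.1 i i.2).2.2.1
      rw [sub_mul, one_mul, h2, sub_self]
    rw [sub_mul, one_mul, sub_eq_zero] at h1
    exact h1.symm
  have hfF : f * F = F := by
    have h1 : (1 - f) * F = 0 := by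
      apply hF.2.2
      intro i
      have h2 : f * ((i : A) * star (i : A)) = (i : A) * star (i : A) :=
        star_eq_of (hPf i) hf (hG.1 i i.2).2.2.2
      rw [sub_mul, one_mul, h2, sub_self]
    rw [sub_mul, one_mul, sub_eq_zero] at h1
    exact h1.symm
  have hEe : E * e = E := by
    have := congrArg star heE
    rwa [star_mul, he.isSelfAdjoint.star_eq, hEP.isSelfAdjoint.star_eq] at this
  have hFf : F * f = F := by
    have := congrArg star hfF
    rwa [star_mul, hf.isSelfAdjoint.star_eq, hFP.isSelfAdjoint.star_eq] at this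
  have hEF : E * F = 0 := by
    rw [← hEe, ← hfF, mul_assoc, ← mul_assoc e f F, hef, zero_mul, mul_zero]
  obtain ⟨v, hv1, hv2, -⟩ := hAdd W (fun i => (i : A)) E F hPi
    (fun i j h => (hG.2 i i.2 j j.2 (hinj i j h)).1)
    (fun i j h => (hG.2 i i.2 j j.2 (hinj i j h)).2) hE hF hEF
  have hPfF : IsStarProjection (f - F) := sub_proj hFP hf hFf
  have hPeE : IsStarProjection (e - E) := sub_proj hEP he hEe
  have hall : ∀ x : A, (f - F) * x * (e - E) = 0 := by
    by_contra hx
    push Not at hx
    obtain ⟨x, hx⟩ := hx
    set y := (f - F) * x * (e - E) with hy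
    have hye : y * (e - E) = y := by
      rw [hy, mul_assoc, hPeE.isIdempotentElem]
    have hfy : (f - F) * y = y := by
      rw [hy, ← mul_assoc, ← mul_assoc, hPfF.isIdempotentElem]
    have hypos : 0 < ‖y‖ := norm_pos_iff.2 hx
    obtain ⟨k, s, hk, hks, hsk, hss, hcomm, hssy, hyss, hsys, hnorm⟩ :=
      hCut y (‖y‖ / 2) (by linarith)
    have hk0 : k ≠ 0 := by
      intro h
      rw [h, sub_zero, mul_one] at hnorm
      linarith
    have hkeE : k * (e - E) = k := by
      calc k * (e - E) = s * s * (star y * (y * (e - E))) := by rw [← hssy]; noncomm_ring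
        _ = k := by rw [hye, hssy]
    have hke : k * e = k := by
      have h1 : (e - E) * e = e - E := by
        rw [sub_mul, hEe, show e * e = e from he.isIdempotentElem]
      rw [← hkeE, mul_assoc, h1]
    have hkE : k * E = 0 := by
      have h1 : (e - E) * E = 0 := by
        rw [sub_mul, heE, show E * E = E from hEP.isIdempotentElem, sub_self]
      rw [← hkeE, mul_assoc, h1, mul_zero]
    -- the new element
    set w := y * s with hw
    have hww : star w * w = k := by
      rw [hw, star_mul, hss, ← hsys]
      noncomm_ring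
    have hwP : IsStarProjection (star w * w) := by rw [hww]; exact hk
    have hwF : (f - F) * w = w := by rw [hw, ← mul_assoc, hfy]
    have hwwf : (w * star w) * (f - F) = w * star w := by
      have h1 : star w * (f - F) = star w := by
        have := congrArg star hwF
        rwa [star_mul, hPfF.isSelfAdjoint.star_eq] at this
      rw [mul_assoc, h1]
    have hwf : (w * star w) * f = w * star w := by
      have h1 : (f - F) * f = f - F := by
        rw [sub_mul, hFf, show f * f = f from hf.isIdempotentElem]
      rw [← hwwf, mul_assoc, h1]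
    have hwF0 : (w * star w) * F = 0 := by
      have h1 : (f - F) * F = 0 := by
        rw [sub_mul, hfF, show F * F = F from hFP.isIdempotentElem, sub_self]
      rw [← hwwf, mul_assoc, h1, mul_zero]
    have hw0 : w ≠ 0 := by
      intro h
      apply hk0
      rw [← hww, h, mul_zero]
    -- orthogonality with the members
    have ho1 : ∀ i ∈ W, (star w * w) * (star i * i) = 0 := by
      intro i hi
      have h1 : E * (star i * i) = star i * i :=
        star_eq_of (hPi ⟨i, hi⟩) hEP (hE.2.1 ⟨i, hi⟩)
      rw [hww, ← h1, ← mul_assoc, hkE, zero_mul]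
    have ho2 : ∀ i ∈ W, (w * star w) * (i * star i) = 0 := by
      intro i hi
      have h1 : F * (i * star i) = i * star i :=
        star_eq_of (hPf ⟨i, hi⟩) hFP (hF.2.1 ⟨i, hi⟩)
      rw [← h1, ← mul_assoc, hwF0, zero_mul]
    have ho1' : ∀ i ∈ W, (star i * i) * (star w * w) = 0 := by
      intro i hi
      have := congrArg star (ho1 i hi)
      simpa [mul_assoc] using this
    have ho2' : ∀ i ∈ W, (i * star i) * (w * star w) = 0 := by
      intro i hi
      have := congrArg star (ho2 i hi)
      simpa [mul_assoc] using this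
    have hwW : w ∉ W := by
      intro h
      have h1 := ho1 w h
      rw [hww, show k * k = k from hk.isIdempotentElem] at h1
      exact hk0 h1
    have hgood : Good e f (insert w W) := by
      refine ⟨?_, ?_⟩
      · rintro a (rfl | ha)
        · exact ⟨hw0, hwP, by rw [hww, hke], hwf⟩
        · exact hG.1 a ha
      · rintro a ha b hb hne
        rcases ha with rfl | ha <;> rcases hb with rfl | hb
        · exact absurd rfl hne
        · exact ⟨ho1 b hb, ho2 b hb⟩
        · exact ⟨ho1' a ha, ho2' a ha⟩
        · exact hG.2 a ha b hb hne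
    have := hW.2 hgood (Set.subset_insert w W)
    exact hwW (this (Set.mem_insert w W))

  have hall' : ∀ x : A, (e - E) * x * (f - F) = 0 := by
    intro x
    have h1 := congrArg star (hall (star x))
    rw [star_mul, star_mul, star_star, star_zero, hPeE.isSelfAdjoint.star_eq,
      hPfF.isSelfAdjoint.star_eq, ← mul_assoc] at h1
    exact h1
  obtain ⟨z0, hz0, hz1, hz2⟩ := hZ (e - E) (f - F) hPeE hPfF hall'
  have hzz : z0 * z0 = z0 := hz0.1.isIdempotentElem
  have hzs : star z0 = z0 := hz0.1.isSelfAdjoint.star_eq
  have hc := hz0.2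
  have hcp : CP (1 - z0) := by
    refine ⟨hz0.1.one_sub, fun x => ?_⟩
    rw [sub_mul, mul_sub, hc, one_mul, mul_one]
  have hZZ : (1 - z0) * (1 - z0) = 1 - z0 := hcp.1.isIdempotentElem
  have hZs : star (1 - z0) = 1 - z0 := hcp.1.isSelfAdjoint.star_eq
  have e1 : (1 - z0) * e = (1 - z0) * E := by
    have h1 : z0 * (e - E) = e - E := by rw [hc, hz1]
    have h2 : (1 - z0) * (e - E) = 0 := by rw [sub_mul, one_mul, h1, sub_self]
    rw [mul_sub, sub_eq_zero] at h2
    exact h2
  have e2 : z0 * f = z0 * F := by
    have h1 : z0 * (f - F) = 0 := by rw [hc, hz2]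
    rw [mul_sub, sub_eq_zero] at h1
    exact h1
  refine ⟨1 - z0, hcp, ⟨v * (1 - z0), ?_, ?_⟩, ?_⟩
  · rw [star_mul, hZs, e1, ← hv1]
    calc (1 - z0) * star v * (v * (1 - z0)) = (1 - z0) * ((star v * v) * (1 - z0)) := by
          noncomm_ring
      _ = (1 - z0) * (star v * v) := by
          rw [← hcp.2 (star v * v), ← mul_assoc, hZZ]
  · have h3 : v * (1 - z0) * star (v * (1 - z0)) = (1 - z0) * F := by
      rw [star_mul, hZs, ← hv2]
      calc v * (1 - z0) * ((1 - z0) * star v) = v * ((1 - z0) * (1 - z0)) * star v := by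
            simp only [mul_assoc]
        _ = (1 - z0) * (v * star v) := by
            rw [hZZ, ← hcp.2 v, mul_assoc]
    rw [h3]
    calc (1 - z0) * F * ((1 - z0) * f) = (1 - z0) * (F * (1 - z0)) * f := by
          simp only [mul_assoc]
      _ = (1 - z0) * F := by
          rw [← hcp.2 F, ← mul_assoc, hZZ, mul_assoc, hFf]
  · rw [sub_sub_cancel]
    refine ⟨star v * z0, ?_, ?_⟩
    · rw [star_mul, star_star, hzs, e2, ← hv2]
      calc z0 * v * (star v * z0) = z0 * ((v * star v) * z0) := by simp only [mul_assoc]
        _ = z0 * (v * star v) := by rw [← hc (v * star v), ← mul_assoc, hzz]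
    · have h3 : star v * z0 * star (star v * z0) = z0 * E := by
        rw [star_mul, star_star, hzs, ← hv1]
        calc star v * z0 * (z0 * v) = star v * (z0 * z0) * v := by simp only [mul_assoc]
          _ = z0 * (star v * v) := by rw [hzz, ← hc (star v), mul_assoc]
      rw [h3]
      calc z0 * E * (z0 * e) = z0 * (E * z0) * e := by simp only [mul_assoc]
        _ = z0 * E := by rw [← hc E, ← mul_assoc, hzz, mul_assoc, hEe]

end Pool.Agent.U962.AWQ
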